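import Pool.Agent.H26.QQ.Targets
import Pool.Agent.H54.TFX.BND

/-!
# Triples with one dusty entry, row BNQ: bounds for the values
-/

set_option autoImplicit false

open Finset MvPolynomial

namespace Pool.Agent.H97.QQ

open Pool.Agent.H29.FX
open Pool.Agent.H26.QQ
open Pool.Agent.H54.TFX

theorem pf_BNQ (hDFM : T_DFM) (hNRM : T_NRM) (hCXT : T_CXT) (hCXW : T_CXW) (hCXL : T_CXL) :
    T_BNQ := by
  intro n B
  obtain ⟨b1, hb1⟩ := hCXT n B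
  obtain ⟨b2, hb2⟩ := hCXL n b1
  obtain ⟨b, hb⟩ : ∃ b, b = b1 + b2 := ⟨_, rfl⟩
  obtain ⟨B', hB'⟩ : ∃ B', B' = 2 * n + 5 * b + 2 + ((2 * n + 2 * b + 2) * n + b * n) :=
    ⟨_, rfl⟩
  refine ⟨B', ?_⟩
  intro Y s pt e L z hY hs hG hL he hpos hle
  have hY1 : 1 ≤ Y := by linarith
  obtain ⟨hD, hJ⟩ := hb1 Y L hY hG hL
  have hD' : ∀ i v, Cx Y b (TD L i (X v)) := fun i v => bnd_mono hY1 (by omega) (hD i v)
  have hJ' : Cx Y b (TJ L) := bnd_mono hY1 (by omega) hJ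
  have hgd : ∀ i, Cx Y b (gd pt e (TD L i)) := fun i =>
    bnd_mono hY1 (by omega) ((hb2 Y (TD L i) pt e hY (fun v => (he v).2) (hD i)).2 0 1)
  have hz1 : ∀ v, (1 : ℝ) ≤ z v := fun v => by exact_mod_cast hpos v
  have hzY : ∀ v, |(z v : ℝ)| ≤ Y := by
    intro v
    rw [abs_of_nonneg (by linarith [hz1 v])]
    refine le_trans ?_ hle
    classical
    rw [← Finset.mul_prod_erase univ (fun v => (z v : ℝ)) (mem_univ v)]
    have h1 : (1 : ℝ) ≤ ∏ w ∈ univ.erase v, (z w : ℝ) :=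
      bnd_prod _ _ hz1
    have h2 := hz1 v
    nlinarith
  have hev : ∀ {f : Pl n}, Cx Y b f → |((eval z f : ℤ) : ℝ)| ≤ Y ^ (2 * b) :=
    fun hf => bnd_ev hNRM hY1 hzY hf
  have hup : Y ^ (2 * b) ≤ Y ^ B' := pow_le_pow_right₀ hY1 (by omega)
  refine ⟨(hev hJ').trans hup, fun i => (hev (hgd i)).trans hup, ?_⟩
  intro i β j
  have hα : ∑ v, ((β v : ℕ)) ≤ n * s := by
    calc ∑ v, ((β v : ℕ)) ≤ ∑ _v : Fin n, s := Finset.sum_le_sum fun v _ => (β v).2.le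
      _ = n * s := by simp
  have h1 := bnd_word hNRM hCXW hDFM hY hs (TD L) hD' (fun v => (β v : ℕ)) hα _
    (hgd i) j z hzY
  rw [← hB'] at h1
  exact h1

end Pool.Agent.H97.QQ
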